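import Pool.Agent.X13.Lenstra.Step

/-!
# The self-similar cycle
-/

namespace Pool.Agent.X13.Lenstra

def GoodOn (x : ℕ → ℚ) (a b : ℕ) : Prop := ∀ n, a ≤ n → n < b → Good x n

lemma GoodOn.trans {x : ℕ → ℚ} {a b c : ℕ} (h1 : GoodOn x a b) (h2 : GoodOn x b c) :
    GoodOn x a c := fun n ha hc => by
  rcases Nat.lt_or_ge n b with h | h
  · exact h1 n ha h
  · exact h2 n h hc

lemma GoodOn.single {x : ℕ → ℚ} {a : ℕ} (h : Good x a) : GoodOn x a (a + 1) := fun n h1 h2 => by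
  have : n = a := by omega
  rw [this]; exact h

lemma good_of_St {x : ℕ → ℚ} {n C s r v m : ℕ} (h : St x n C s r) (hn : n = 2 ^ v * m)
    (hm : Odd m) (hv : v ≤ C) : Good x n := by
  obtain ⟨u, hu, _⟩ := h
  exact good_of_state hn hm hv hu

lemma ndvd {M k n : ℕ} (h1 : k * M < n) (h2 : n < (k + 1) * M) : ¬ M ∣ n := by
  rintro ⟨c, rfl⟩
  have h3 : k < c := by
    by_contra hc
    have := Nat.mul_le_mul_right M (Nat.le_of_not_lt hc)
    rw [mul_comm c M] at this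
    omega
  have h4 : c < k + 1 := by
    by_contra hc
    have := Nat.mul_le_mul_right M (Nat.le_of_not_lt hc)
    rw [mul_comm c M] at this
    omega
  omega

/-- range from just after `k * 2^(t+1)` to `(k+1) * 2^(t+1)` -/
lemma range' {x : ℕ → ℚ} (hx : Rec x) {C s r t k a b : ℕ} (hC : 2 * t + s ≤ C)
    (ha : a = k * 2 ^ (t + 1) + 1) (hb : b = (k + 1) * 2 ^ (t + 1)) (h : St x a C s r) :
    St x b C s r ∧ GoodOn x a b := by
  have hM : 1 ≤ 2 ^ (t + 1) := Nat.one_le_two_pow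
  have hab : b = k * 2 ^ (t + 1) + 2 ^ (t + 1) := by rw [hb]; ring
  obtain ⟨l, hl⟩ : ∃ l, b = a + l := ⟨b - a, by omega⟩
  have := range hx (show 1 ≤ a by omega) hC l (fun n h1 h2 => ndvd (k := k) (by omega)
    (by rw [← hb]; omega)) h
  rw [hl]
  exact this

lemma cycle {x : ℕ → ℚ} (hx : Rec x) (i : ℕ) (h : St x (32 * 2 ^ i + 1) (2 * i + 6) 3 5) :
    St x (32 * 2 ^ (i + 1) + 1) (2 * (i + 1) + 6) 3 5 ∧
      GoodOn x (32 * 2 ^ i + 1) (32 * 2 ^ (i + 1) + 1) := by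
  -- here `q = 2^(i+1)`
  have hq : 1 ≤ 2 ^ i := Nat.one_le_two_pow
  have e1 : 2 ^ (i + 1) = 2 * 2 ^ i := by ring
  have e2 : 2 ^ (i + 2) = 4 * 2 ^ i := by ring
  have e3 : 2 ^ (i + 3) = 8 * 2 ^ i := by ring
  have e4 : 2 ^ (i + 4) = 16 * 2 ^ i := by ring
  have e6 : 2 ^ (i + 6) = 64 * 2 ^ i := by ring
  -- R1
  obtain ⟨s1, g1⟩ := range' hx (t := i + 1) (k := 8) (b := 36 * 2 ^ i) (by omega)
    (by rw [show i + 1 + 1 = i + 2 by ring, e2]; ring)
    (by rw [show i + 1 + 1 = i + 2 by ring, e2]; ring) h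
  have c1 : 36 * 2 ^ i = 2 ^ (i + 2) * 9 := by rw [e2]; ring
  have G1 := good_of_St s1 c1 (by decide) (by omega)
  have s2 := critA hx (n := 36 * 2 ^ i) (v := i + 2) (m := 9) (d := 2) (s := 3) (r := 5) (s' := 3)
    (r' := 1) (g := 0) (by omega) c1 (by decide) (by decide)
    (by rw [show 2 * (i + 2) + 2 = 2 * i + 6 by ring]; exact s1)
  -- R2
  obtain ⟨s3, g3⟩ := range' hx (t := i + 1) (k := 9) (b := 40 * 2 ^ i) (by omega)
    (by rw [show i + 1 + 1 = i + 2 by ring, e2]; ring)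
    (by rw [show i + 1 + 1 = i + 2 by ring, e2]; ring) s2
  have c3 : 40 * 2 ^ i = 2 ^ (i + 3) * 5 := by rw [e3]; ring
  have G3 := good_of_St s3 c3 (by decide) (by omega)
  have s4 := critA hx (n := 40 * 2 ^ i) (v := i + 3) (m := 5) (d := 0) (s := 3) (r := 1) (s' := 2)
    (r' := 1) (g := 1) (by omega) c3 (by decide) (by decide)
    (by rw [show 2 * (i + 3) + 0 = 2 * (i + 2) + 2 + 0 by ring]; exact s3)
  -- R3
  obtain ⟨s5, g5⟩ := range' hx (t := i + 2) (k := 5) (b := 48 * 2 ^ i) (by omega)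
    (by rw [show i + 2 + 1 = i + 3 by ring, e3]; ring)
    (by rw [show i + 2 + 1 = i + 3 by ring, e3]; ring) s4
  have c5 : 48 * 2 ^ i = 2 ^ (i + 4) * 3 := by rw [e4]; ring
  have G5 := good_of_St s5 c5 (by decide) (by omega)
  have s6 := critB hx (n := 48 * 2 ^ i) (v := i + 4) (m := 3) (e := 1) (C := 2 * i + 5) (s := 2)
    (r := 1) (s' := 5) (r' := 27) (by omega) c5 (by decide) (by ring) (by decide)
    (by rw [show 2 * i + 5 + 2 * 1 = 2 * (i + 3) + 0 + 1 by ring]; exact s5)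
  -- R4
  obtain ⟨s7, g7⟩ := range' hx (t := i) (k := 24) (b := 50 * 2 ^ i) (by omega)
    (by rw [e1]; ring) (by rw [e1]; ring) s6
  have c7 : 50 * 2 ^ i = 2 ^ (i + 1) * 25 := by rw [e1]; ring
  have G7 := good_of_St s7 c7 (by decide) (by omega)
  have s8 := critA hx (n := 50 * 2 ^ i) (v := i + 1) (m := 25) (d := 4) (s := 5) (r := 27)
    (s' := 5) (r' := 11) (g := 0) (by omega) c7 (by decide) (by decide)
    (by rw [show 2 * (i + 1) + 4 = 2 * i + 5 + 1 by ring]; exact s7)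
  -- R5
  obtain ⟨s9, g9⟩ := range' hx (t := i) (k := 25) (b := 52 * 2 ^ i) (by omega)
    (by rw [e1]; ring) (by rw [e1]; ring) s8
  have c9 : 52 * 2 ^ i = 2 ^ (i + 2) * 13 := by rw [e2]; ring
  have G9 := good_of_St s9 c9 (by decide) (by omega)
  have s10 := critA hx (n := 52 * 2 ^ i) (v := i + 2) (m := 13) (d := 2) (s := 5) (r := 11)
    (s' := 5) (r' := 15) (g := 0) (by omega) c9 (by decide) (by decide)
    (by rw [show 2 * (i + 2) + 2 = 2 * (i + 1) + 4 + 0 by ring]; exact s9)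
  -- R6
  obtain ⟨s11, g11⟩ := range' hx (t := i) (k := 26) (b := 54 * 2 ^ i) (by omega)
    (by rw [e1]; ring) (by rw [e1]; ring) s10
  have c11 : 54 * 2 ^ i = 2 ^ (i + 1) * 27 := by rw [e1]; ring
  have G11 := good_of_St s11 c11 (by decide) (by omega)
  have s12 := critA hx (n := 54 * 2 ^ i) (v := i + 1) (m := 27) (d := 4) (s := 5) (r := 15)
    (s' := 5) (r' := 31) (g := 0) (by omega) c11 (by decide) (by decide)
    (by rw [show 2 * (i + 1) + 4 = 2 * (i + 2) + 2 + 0 by ring]; exact s11)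
  -- R7
  obtain ⟨s13, g13⟩ := range' hx (t := i) (k := 27) (b := 56 * 2 ^ i) (by omega)
    (by rw [e1]; ring) (by rw [e1]; ring) s12
  have c13 : 56 * 2 ^ i = 2 ^ (i + 3) * 7 := by rw [e3]; ring
  have G13 := good_of_St s13 c13 (by decide) (by omega)
  have s14 := critA hx (n := 56 * 2 ^ i) (v := i + 3) (m := 7) (d := 0) (s := 5) (r := 31)
    (s' := 1) (r' := 1) (g := 4) (by omega) c13 (by decide) (by decide)
    (by rw [show 2 * (i + 3) + 0 = 2 * (i + 1) + 4 + 0 by ring]; exact s13)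
  -- R8
  obtain ⟨s15, g15⟩ := range' hx (t := i + 2) (k := 7) (b := 64 * 2 ^ i) (by omega)
    (by rw [show i + 2 + 1 = i + 3 by ring, e3]; ring)
    (by rw [show i + 2 + 1 = i + 3 by ring, e3]; ring) s14
  have c15 : 64 * 2 ^ i = 2 ^ (i + 6) * 1 := by rw [e6]; ring
  have G15 := good_of_St s15 c15 (by decide) (by omega)
  have s16 := critB hx (n := 64 * 2 ^ i) (v := i + 6) (m := 1) (e := 2) (C := 2 * i + 6) (s := 1)
    (r := 1) (s' := 3) (r' := 5) (by omega) c15 (by decide) (by ring) (by decide)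
    (by rw [show 2 * i + 6 + 2 * 2 = 2 * (i + 3) + 0 + 4 by ring]; exact s15)
  have f1 : 32 * 2 ^ (i + 1) + 1 = 64 * 2 ^ i + 1 := by rw [e1]; ring
  have f2 : 2 * (i + 1) + 6 = 2 * i + 6 + 2 := by ring
  rw [f1, f2]
  refine ⟨s16, ?_⟩
  exact g1.trans ((GoodOn.single G1).trans (g3.trans ((GoodOn.single G3).trans (g5.trans
    ((GoodOn.single G5).trans (g7.trans ((GoodOn.single G7).trans (g9.trans
    ((GoodOn.single G9).trans (g11.trans ((GoodOn.single G11).trans (g13.trans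
    ((GoodOn.single G13).trans (g15.trans (GoodOn.single G15)))))))))))))))

/-- everything after the base point is 2-integral -/
lemma good_of_base {x : ℕ → ℚ} (hx : Rec x) (i0 : ℕ)
    (h : St x (32 * 2 ^ i0 + 1) (2 * i0 + 6) 3 5) (n : ℕ) (hn : 32 * 2 ^ i0 + 1 ≤ n) :
    Good x n := by
  have key : ∀ j : ℕ, St x (32 * 2 ^ (i0 + j) + 1) (2 * (i0 + j) + 6) 3 5 ∧
      GoodOn x (32 * 2 ^ i0 + 1) (32 * 2 ^ (i0 + j) + 1) := by
    intro j
    induction j with
    | zero => exact ⟨h, fun n h1 h2 => by simp at h2; omega⟩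
    | succ j ih =>
      obtain ⟨h1, h2⟩ := cycle hx (i0 + j) ih.1
      exact ⟨h1, ih.2.trans h2⟩
  have h1 := (key n).2
  apply h1 n hn
  have h2 : n < 2 ^ n := Nat.lt_two_pow_self
  have h3 : 2 ^ n ≤ 2 ^ (i0 + n) := Nat.pow_le_pow_right (by norm_num) (by omega)
  omega

end Pool.Agent.X13.Lenstra
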