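import Mathlib

/-!
# 2-adic steps for the recursion `(n+1) x_{n+1} = x_n (x_n + n)`
-/

namespace Pool.Agent.X13.Lenstra

/-- `x_n` is a 2-adic integer -/
def Good (x : ℕ → ℚ) (n : ℕ) : Prop := ∃ X : ℤ_[2], ((x n : ℚ) : ℚ_[2]) = (X : ℚ_[2])

/-- `n x_n = 2^C u` with `u ≡ r (mod 2^s)` -/
def St (x : ℕ → ℚ) (n C s r : ℕ) : Prop :=
  ∃ u : ℤ_[2], ((n : ℚ_[2]) * ((x n : ℚ) : ℚ_[2]) = 2 ^ C * (u : ℚ_[2])) ∧
    ∃ z : ℤ_[2], u = (r : ℤ_[2]) + 2 ^ s * z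

/-- the recursion -/
def Rec (x : ℕ → ℚ) : Prop := ∀ n : ℕ, 1 ≤ n → ((n : ℚ) + 1) * x (n + 1) = x n * (x n + n)

lemma coe_two : ((2 : ℤ_[2]) : ℚ_[2]) = 2 := rfl

lemma odd_inv (m : ℕ) (hm : Odd m) : ∃ w : ℤ_[2], (m : ℤ_[2]) * w = 1 := by
  have h1 : ‖(m : ℤ_[2])‖ = 1 := by
    rw [PadicInt.norm_natCast_eq_one_iff]
    exact (Nat.coprime_two_left).2 hm
  exact (PadicInt.isUnit_iff.2 h1).exists_right_inv

lemma to_form (s r : ℕ) (a : ℤ_[2])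
    (h : PadicInt.toZModPow s a = ((r : ℕ) : ZMod (2 ^ s))) :
    ∃ z : ℤ_[2], a = (r : ℤ_[2]) + 2 ^ s * z := by
  have h1 : PadicInt.toZModPow s (a - (r : ℤ_[2])) = 0 := by
    rw [map_sub, h, map_natCast, sub_self]
  have h2 : a - (r : ℤ_[2]) ∈ RingHom.ker (PadicInt.toZModPow (p := 2) s) := h1
  rw [PadicInt.ker_toZModPow, Ideal.mem_span_singleton] at h2
  obtain ⟨z, hz⟩ := h2
  refine ⟨z, ?_⟩
  have h3 : ((2 : ℕ) : ℤ_[2]) = 2 := by norm_num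
  rw [h3] at hz
  rw [← hz]; ring

lemma rec_cast {x : ℕ → ℚ} (hx : Rec x) (n : ℕ) (hn : 1 ≤ n) :
    ((n + 1 : ℕ) : ℚ_[2]) * ((x (n + 1) : ℚ) : ℚ_[2]) =
      (n : ℚ_[2]) * ((x n : ℚ) : ℚ_[2]) + ((x n : ℚ) : ℚ_[2]) ^ 2 := by
  have h := hx n hn
  have h2 : ((((n : ℚ) + 1) * x (n + 1) : ℚ) : ℚ_[2]) = ((x n * (x n + n) : ℚ) : ℚ_[2]) := by
    rw [h]
  push_cast at h2 ⊢
  rw [h2]; ring

/-- the value of `x_n` from the state -/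
lemma x_eq {x : ℕ → ℚ} {n C v m : ℕ} {u w : ℤ_[2]} (hn : n = 2 ^ v * m) (hw : (m : ℤ_[2]) * w = 1)
    (hu : (n : ℚ_[2]) * ((x n : ℚ) : ℚ_[2]) = 2 ^ C * (u : ℚ_[2])) :
    (2 : ℚ_[2]) ^ v * ((x n : ℚ) : ℚ_[2]) = 2 ^ C * (u : ℚ_[2]) * (w : ℚ_[2]) := by
  have hw' : (m : ℚ_[2]) * (w : ℚ_[2]) = 1 := by
    have := congrArg (fun t : ℤ_[2] => (t : ℚ_[2])) hw
    simpa using this
  have hn' : (n : ℚ_[2]) = 2 ^ v * (m : ℚ_[2]) := by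
    rw [hn]; push_cast; ring
  rw [hn'] at hu
  calc (2 : ℚ_[2]) ^ v * ((x n : ℚ) : ℚ_[2])
      = (2 ^ v * (m : ℚ_[2]) * ((x n : ℚ) : ℚ_[2])) * (w : ℚ_[2]) := by
        linear_combination (-(2 : ℚ_[2]) ^ v * ((x n : ℚ) : ℚ_[2])) * hw'
    _ = _ := by rw [hu]

lemma two_pow_ne (v : ℕ) : (2 : ℚ_[2]) ^ v ≠ 0 := pow_ne_zero _ (by norm_num)

lemma good_of_state {x : ℕ → ℚ} {n C v m : ℕ} {u : ℤ_[2]} (hn : n = 2 ^ v * m) (hm : Odd m)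
    (hv : v ≤ C) (hu : (n : ℚ_[2]) * ((x n : ℚ) : ℚ_[2]) = 2 ^ C * (u : ℚ_[2])) : Good x n := by
  obtain ⟨w, hw⟩ := odd_inv m hm
  have h := x_eq hn hw hu
  obtain ⟨d, rfl⟩ : ∃ d, C = v + d := ⟨C - v, by omega⟩
  refine ⟨2 ^ d * u * w, ?_⟩
  apply mul_left_cancel₀ (two_pow_ne v)
  rw [h]
  push_cast
  simp only [coe_two]
  ring

/-- a step with `2 v + d = C` -/
lemma stepA {x : ℕ → ℚ} (hx : Rec x) {n v m d : ℕ} {u w : ℤ_[2]} (hn1 : 1 ≤ n)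
    (hn : n = 2 ^ v * m) (hw : (m : ℤ_[2]) * w = 1)
    (hu : (n : ℚ_[2]) * ((x n : ℚ) : ℚ_[2]) = 2 ^ (2 * v + d) * (u : ℚ_[2])) :
    ((n + 1 : ℕ) : ℚ_[2]) * ((x (n + 1) : ℚ) : ℚ_[2]) =
      2 ^ (2 * v + d) * ((u * (1 + 2 ^ d * u * w ^ 2) : ℤ_[2]) : ℚ_[2]) := by
  have h := x_eq hn hw hu
  have h2 : ((x n : ℚ) : ℚ_[2]) = 2 ^ (v + d) * (u : ℚ_[2]) * (w : ℚ_[2]) := by
    apply mul_left_cancel₀ (two_pow_ne v)
    rw [h]; ring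
  rw [rec_cast hx n hn1, hu, h2]
  push_cast
  simp only [coe_two]
  ring

/-- a step with `2 v = C + e`, `e ≤ C` -/
lemma stepB {x : ℕ → ℚ} (hx : Rec x) {n v m e C : ℕ} {u w : ℤ_[2]} (hn1 : 1 ≤ n)
    (hn : n = 2 ^ v * m) (hw : (m : ℤ_[2]) * w = 1) (he : 2 * v = C + 2 * e + e)
    (hu : (n : ℚ_[2]) * ((x n : ℚ) : ℚ_[2]) = 2 ^ (C + 2 * e) * (u : ℚ_[2])) :
    ((n + 1 : ℕ) : ℚ_[2]) * ((x (n + 1) : ℚ) : ℚ_[2]) =
      2 ^ (C + e) * ((2 ^ e * u + u ^ 2 * w ^ 2 : ℤ_[2]) : ℚ_[2]) := by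
  have h := x_eq hn hw hu
  have h2 : (2 : ℚ_[2]) ^ (2 * v) * ((x n : ℚ) : ℚ_[2]) ^ 2 =
      2 ^ (2 * v) * (2 ^ (C + e) * ((u : ℚ_[2]) ^ 2 * (w : ℚ_[2]) ^ 2)) := by
    have h3 : (2 : ℚ_[2]) ^ (2 * v) * ((x n : ℚ) : ℚ_[2]) ^ 2 =
        ((2 : ℚ_[2]) ^ v * ((x n : ℚ) : ℚ_[2])) ^ 2 := by ring
    rw [h3, h, he]
    ring
  have h4 := mul_left_cancel₀ (two_pow_ne (2 * v)) h2
  rw [rec_cast hx n hn1, hu, h4]
  push_cast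
  simp only [coe_two]
  ring

/-- a range without large powers of two -/
lemma range {x : ℕ → ℚ} (hx : Rec x) {a C s r t : ℕ} (ha : 1 ≤ a) (hC : 2 * t + s ≤ C) :
    ∀ l : ℕ, (∀ n, a ≤ n → n < a + l → ¬ 2 ^ (t + 1) ∣ n) → St x a C s r →
      St x (a + l) C s r ∧ ∀ n, a ≤ n → n < a + l → Good x n := by
  intro l
  induction l with
  | zero =>
    intro _ h
    exact ⟨h, fun n h1 h2 => by omega⟩
  | succ l ih =>
    intro hdiv h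
    obtain ⟨⟨u, hu, z, hz⟩, hg⟩ := ih (fun n h1 h2 => hdiv n h1 (by omega)) h
    obtain ⟨v, m, hm, hn⟩ := Nat.exists_eq_two_pow_mul_odd (n := a + l) (by omega)
    have hv : v ≤ t := by
      by_contra hvt
      apply hdiv (a + l) (by omega) (by omega)
      exact (pow_dvd_pow 2 (by omega)).trans (Dvd.intro _ hn.symm)
    constructor
    · obtain ⟨w, hw⟩ := odd_inv m hm
      obtain ⟨d, hd⟩ : ∃ d, C = 2 * v + (s + d) := ⟨C - 2 * v - s, by omega⟩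
      rw [hd] at hu
      have h2 := stepA hx (show 1 ≤ a + l by omega) hn hw hu
      refine ⟨u * (1 + 2 ^ (s + d) * u * w ^ 2), ?_, z + 2 ^ d * u ^ 2 * w ^ 2, ?_⟩
      · rw [hd]; exact h2
      · linear_combination hz
    · intro n h1 h2
      rcases Nat.lt_or_ge n (a + l) with h3 | h3
      · exact hg n h1 h3
      · have h4 : n = a + l := by omega
        rw [h4]
        exact good_of_state hn hm (by omega) hu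

/-- the combination of one critical step and the following range -/
lemma key18 : ∀ a b : ZMod (2 ^ 3), 9 * b = 1 →
    (5 + 2 ^ 3 * a) * (1 + 2 ^ 2 * (5 + 2 ^ 3 * a) * b ^ 2) = 1 := by decide

lemma key20 : ∀ a b : ZMod (2 ^ 3), 5 * b = 1 →
    (1 + 2 ^ 3 * a) * (1 + 2 ^ 0 * (1 + 2 ^ 3 * a) * b ^ 2) = 2 := by decide

lemma key24 : ∀ a b : ZMod (2 ^ 5), 3 * b = 1 →
    2 ^ 1 * (1 + 2 ^ 2 * a) + (1 + 2 ^ 2 * a) ^ 2 * b ^ 2 = 27 := by decide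

lemma key25 : ∀ a b : ZMod (2 ^ 5), 25 * b = 1 →
    (27 + 2 ^ 5 * a) * (1 + 2 ^ 4 * (27 + 2 ^ 5 * a) * b ^ 2) = 11 := by decide

lemma key26 : ∀ a b : ZMod (2 ^ 5), 13 * b = 1 →
    (11 + 2 ^ 5 * a) * (1 + 2 ^ 2 * (11 + 2 ^ 5 * a) * b ^ 2) = 15 := by decide

lemma key27 : ∀ a b : ZMod (2 ^ 5), 27 * b = 1 →
    (15 + 2 ^ 5 * a) * (1 + 2 ^ 4 * (15 + 2 ^ 5 * a) * b ^ 2) = 31 := by decide

lemma key28 : ∀ a b : ZMod (2 ^ 5), 7 * b = 1 →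
    (31 + 2 ^ 5 * a) * (1 + 2 ^ 0 * (31 + 2 ^ 5 * a) * b ^ 2) = 16 := by decide

lemma key32 : ∀ a b : ZMod (2 ^ 3), 1 * b = 1 →
    2 ^ 2 * (1 + 2 ^ 1 * a) + (1 + 2 ^ 1 * a) ^ 2 * b ^ 2 = 5 := by decide

/-- generic use of `stepA` with a residue computation -/
lemma critA {x : ℕ → ℚ} (hx : Rec x) {n v m d s r s' r' g : ℕ} (hn1 : 1 ≤ n)
    (hn : n = 2 ^ v * m) (hm : Odd m)
    (key : ∀ a b : ZMod (2 ^ (g + s')), (m : ZMod (2 ^ (g + s'))) * b = 1 →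
      ((r : ZMod (2 ^ (g + s'))) + 2 ^ s * a) *
        (1 + 2 ^ d * ((r : ZMod (2 ^ (g + s'))) + 2 ^ s * a) * b ^ 2) =
        ((2 ^ g * r' : ℕ) : ZMod (2 ^ (g + s'))))
    (h : St x n (2 * v + d) s r) : St x (n + 1) (2 * v + d + g) s' r' := by
  obtain ⟨u, hu, z, hz⟩ := h
  obtain ⟨w, hw⟩ := odd_inv m hm
  have h1 := stepA hx hn1 hn hw hu
  have h2 := key (PadicInt.toZModPow (g + s') z) (PadicInt.toZModPow (g + s') w) (by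
    rw [← map_natCast (PadicInt.toZModPow (p := 2) (g + s')), ← map_mul, hw, map_one])
  have h3 : PadicInt.toZModPow (g + s') (u * (1 + 2 ^ d * u * w ^ 2)) =
      ((2 ^ g * r' : ℕ) : ZMod (2 ^ (g + s'))) := by
    rw [← h2, hz]
    simp only [map_mul, map_add, map_pow, map_one, map_natCast, map_ofNat]
  obtain ⟨z', hz'⟩ := to_form _ _ _ h3
  refine ⟨(r' : ℤ_[2]) + 2 ^ s' * z', ?_, z', rfl⟩
  rw [h1, hz']
  push_cast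
  simp only [coe_two]
  ring

lemma critB {x : ℕ → ℚ} (hx : Rec x) {n v m e C s r s' r' : ℕ} (hn1 : 1 ≤ n)
    (hn : n = 2 ^ v * m) (hm : Odd m) (he : 2 * v = C + 2 * e + e)
    (key : ∀ a b : ZMod (2 ^ s'), (m : ZMod (2 ^ s')) * b = 1 →
      2 ^ e * ((r : ZMod (2 ^ s')) + 2 ^ s * a) +
        ((r : ZMod (2 ^ s')) + 2 ^ s * a) ^ 2 * b ^ 2 = ((r' : ℕ) : ZMod (2 ^ s')))
    (h : St x n (C + 2 * e) s r) : St x (n + 1) (C + e) s' r' := by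
  obtain ⟨u, hu, z, hz⟩ := h
  obtain ⟨w, hw⟩ := odd_inv m hm
  have h1 := stepB hx hn1 hn hw he hu
  have h2 := key (PadicInt.toZModPow s' z) (PadicInt.toZModPow s' w) (by
    rw [← map_natCast (PadicInt.toZModPow (p := 2) s'), ← map_mul, hw, map_one])
  have h3 : PadicInt.toZModPow s' (2 ^ e * u + u ^ 2 * w ^ 2) =
      ((r' : ℕ) : ZMod (2 ^ s')) := by
    rw [← h2, hz]
    simp only [map_mul, map_add, map_pow, map_natCast, map_ofNat]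
  obtain ⟨z', hz'⟩ := to_form _ _ _ h3
  exact ⟨_, h1, z', hz'⟩

end Pool.Agent.X13.Lenstra
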